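import Mathlib

set_option autoImplicit false

/-!
The minimal size of a `3`-approximate group admissible for the Heisenberg grid is `(2N+1)^2`.
-/

namespace Pool.Agent.Results.MP_6a66b4_co.SmallAdmissible

open Filter Topology ENNReal

/-- The Heisenberg group. -/
@[ext] structure Heis where
  /-- first coordinate -/
  x : ℝ
  /-- second coordinate -/
  y : ℝ
  /-- third coordinate -/
  z : ℝ

noncomputable instance : Mul Heis := ⟨fun a b => ⟨a.x + b.x, a.y + b.y, a.z + b.z + a.x * b.y⟩⟩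
noncomputable instance : One Heis := ⟨⟨0, 0, 0⟩⟩
noncomputable instance : Inv Heis := ⟨fun a => ⟨-a.x, -a.y, -a.z + a.x * a.y⟩⟩

theorem mul_x (a b : Heis) : (a * b).x = a.x + b.x := rfl
theorem mul_y (a b : Heis) : (a * b).y = a.y + b.y := rfl
theorem mul_z (a b : Heis) : (a * b).z = a.z + b.z + a.x * b.y := rfl
theorem one_x : (1 : Heis).x = 0 := rfl
theorem one_y : (1 : Heis).y = 0 := rfl
theorem one_z : (1 : Heis).z = 0 := rfl
theorem inv_x (a : Heis) : (a⁻¹).x = -a.x := rfl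
theorem inv_y (a : Heis) : (a⁻¹).y = -a.y := rfl
theorem inv_z (a : Heis) : (a⁻¹).z = -a.z + a.x * a.y := rfl

noncomputable instance : Group Heis := Group.ofLeftAxioms
  (by
    intro a b c
    ext
    · simp only [mul_x]; ring
    · simp only [mul_y]; ring
    · simp only [mul_z, mul_x, mul_y]; ring)
  (by
    intro a
    ext
    · simp only [mul_x, one_x]; ring
    · simp only [mul_y, one_y]; ring
    · simp only [mul_z, one_x, one_z]; ring)
  (by
    intro a
    ext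
    · simp only [mul_x, inv_x, one_x]; ring
    · simp only [mul_y, inv_y, one_y]; ring
    · simp only [mul_z, inv_x, inv_z, one_z]; ring)

section defs

variable {G : Type} [Group G]

/-- `B` is a `K`-approximate group: `1 ∈ B`, `B⁻¹ = B` and `B²` is covered by at most `K` left
translates of `B`. -/
def IsApprox (K : ℝ) (B : Set G) : Prop :=
  1 ∈ B ∧ (∀ b ∈ B, b⁻¹ ∈ B) ∧
    ∃ X : Finset G, (X.card : ℝ) ≤ K ∧ ∀ a ∈ B, ∀ b ∈ B, ∃ x ∈ X, ∃ c ∈ B, a * b = x * c

/-- The cocycle `∂φ`. -/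
noncomputable def cocycle (φ : G → Heis) (a b : G) : Heis := (φ b)⁻¹ * (φ a)⁻¹ * φ (a * b)

/-- Admissible triples. -/
structure Admissible (K : ℝ) (N : ℕ) (B : Set G) (φ : G → Heis) : Prop where
  approx : IsApprox K B
  range : ∀ b ∈ B, (∃ i : ℤ, (φ b).x = i / N) ∧ (∃ j : ℤ, (φ b).y = j / N) ∧
    |(φ b).x| ≤ 10 ∧ |(φ b).y| ≤ 10 ∧ |(φ b).z| ≤ 10
  onto : ∀ i j : ℤ, |(i : ℝ) / N| ≤ 1 → |(j : ℝ) / N| ≤ 1 →
    ∃ b ∈ B, (φ b).x = i / N ∧ (φ b).y = j / N ∧ |(φ b).z| ≤ 10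
  hom : ∀ a ∈ B, ∀ b ∈ B, a * b ∈ B →
    (cocycle φ a b).x = 0 ∧ (cocycle φ a b).y = 0 ∧ |(cocycle φ a b).z| ≤ 10 / N

end defs

/-- The infimum of `|B|` over all admissible triples. -/
noncomputable def m (K : ℝ) (N : ℕ) : ℕ∞ :=
  sInf {n | ∃ (G : Type) (_ : Group G) (B : Set G) (φ : G → Heis),
    Admissible K N B φ ∧ n = B.encard}

/-- The statement asked for in Q1: for each fixed `K`, `m_K(N) / N ^ 3` tends to infinity. -/
def Q1 : Prop := ∀ K : ℝ, 1 ≤ K →
  Tendsto (fun N : ℕ => ((m K N : ℕ∞) : ℝ≥0∞) / (N : ℝ≥0∞) ^ 3) atTop (𝓝 ⊤)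

/-- The grid. -/
noncomputable def grid (N : ℕ) : Finset (ℤ × ℤ) := Finset.Icc (-(N : ℤ)) N ×ˢ Finset.Icc (-(N : ℤ)) N

theorem grid_card (N : ℕ) : (grid N).card = (2 * N + 1) ^ 2 := by
  rw [grid, Finset.card_product, Int.card_Icc, pow_two]
  have : ((N : ℤ) + 1 - -(N : ℤ)).toNat = 2 * N + 1 := by omega
  rw [this]

theorem lower {G : Type} [Group G] {K : ℝ} {N : ℕ} (hN : 1 ≤ N) {B : Set G} {φ : G → Heis}
    (h : Admissible K N B φ) : (((2 * N + 1) ^ 2 : ℕ) : ℕ∞) ≤ B.encard := by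
  have hN' : (0 : ℝ) < N := by exact_mod_cast hN
  have h1 : ∀ p : ℤ × ℤ, ∃ b, p ∈ grid N → b ∈ B ∧ (φ b).x = p.1 / N ∧ (φ b).y = p.2 / N := by
    intro p
    by_cases hp : p ∈ grid N
    · rw [grid, Finset.mem_product, Finset.mem_Icc, Finset.mem_Icc] at hp
      have h2 : ∀ i : ℤ, -(N : ℤ) ≤ i ∧ i ≤ N → |(i : ℝ) / N| ≤ 1 := by
        rintro i ⟨h3, h4⟩
        rw [abs_le, le_div_iff₀ hN', div_le_iff₀ hN']
        refine ⟨?_, ?_⟩
        · rw [neg_one_mul]; exact_mod_cast h3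
        · rw [one_mul]; exact_mod_cast h4
      obtain ⟨b, hb, h3, h4, -⟩ := h.onto p.1 p.2 (h2 _ hp.1) (h2 _ hp.2)
      exact ⟨b, fun _ => ⟨hb, h3, h4⟩⟩
    · exact ⟨1, fun h => absurd h hp⟩
  choose f hf using h1
  have hinj : Set.InjOn f (grid N : Set (ℤ × ℤ)) := by
    intro p hp q hq hpq
    have h2 := hf p hp
    have h3 := hf q hq
    rw [hpq] at h2
    have h4 := h2.2.1.symm.trans h3.2.1
    have h5 := h2.2.2.symm.trans h3.2.2
    rw [div_left_inj' hN'.ne'] at h4 h5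
    exact Prod.ext (by exact_mod_cast h4) (by exact_mod_cast h5)
  have h2 : f '' (grid N : Set (ℤ × ℤ)) ⊆ B := by
    rintro _ ⟨p, hp, rfl⟩
    exact (hf p hp).1
  have h3 := Set.encard_le_encard h2
  rwa [hinj.encard_image, Set.encard_coe_eq_coe_finsetCard, grid_card] at h3

/-- One half of the nonzero grid points. -/
noncomputable def half (N : ℕ) : Finset (ℤ × ℤ) :=
  (Finset.Icc 1 (N : ℤ) ×ˢ Finset.Icc (-(N : ℤ)) N) ∪ ({0} ×ˢ Finset.Icc 1 (N : ℤ))

theorem half_card (N : ℕ) : 2 * (half N).card + 1 = (2 * N + 1) ^ 2 := by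
  rw [half, Finset.card_union_of_disjoint, Finset.card_product, Finset.card_product,
    Int.card_Icc, Int.card_Icc, Finset.card_singleton]
  · have h1 : ((N : ℤ) + 1 - -(N : ℤ)).toNat = 2 * N + 1 := by omega
    have h2 : ((N : ℤ) + 1 - 1).toNat = N := by omega
    rw [h1, h2]
    ring
  · rw [Finset.disjoint_left]
    rintro ⟨i, j⟩ h1 h2
    rw [Finset.mem_product, Finset.mem_Icc] at h1 h2
    have h3 : i = 0 := Finset.mem_singleton.1 h2.1
    have h4 : 1 ≤ i := h1.1.1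
    omega

theorem mem_half {N : ℕ} {p : ℤ × ℤ} (hp : p ∈ half N) : |p.1| ≤ N ∧ |p.2| ≤ N := by
  rw [half, Finset.mem_union, Finset.mem_product, Finset.mem_product, Finset.mem_Icc,
    Finset.mem_Icc, Finset.mem_singleton, Finset.mem_Icc] at hp
  rw [abs_le, abs_le]
  omega

theorem half_cover {N : ℕ} {i j : ℤ} (hi : |i| ≤ N) (hj : |j| ≤ N) :
    (i, j) ∈ half N ∨ (-i, -j) ∈ half N ∨ (i = 0 ∧ j = 0) := by
  rw [half, Finset.mem_union, Finset.mem_product, Finset.mem_product, Finset.mem_Icc,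
    Finset.mem_Icc, Finset.mem_singleton, Finset.mem_Icc, Finset.mem_union, Finset.mem_product,
    Finset.mem_product, Finset.mem_Icc, Finset.mem_Icc, Finset.mem_singleton, Finset.mem_Icc]
  rw [abs_le] at hi hj
  simp only
  omega

section example_group

variable {H : Type} [CommGroup H]

/-- The set `{1} ∪ x H ∪ x⁻¹ H`. -/
def BB (H : Type) [CommGroup H] : Set (Multiplicative ℤ × H) :=
  {b | b = 1 ∨ Multiplicative.toAdd b.1 = 1 ∨ Multiplicative.toAdd b.1 = -1}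

theorem BB_approx : IsApprox 3 (BB H) := by
  classical
  refine ⟨Or.inl rfl, ?_, {1, (Multiplicative.ofAdd 1, 1), (Multiplicative.ofAdd (-1), 1)}, ?_, ?_⟩
  · rintro b (rfl | h | h)
    · exact Or.inl inv_one
    · right; right
      show - Multiplicative.toAdd b.1 = -1
      rw [h]
    · right; left
      show - Multiplicative.toAdd b.1 = 1
      rw [h]; rfl
  · exact_mod_cast Finset.card_le_three
  · intro a ha b hb
    by_cases ha1 : a = 1
    · exact ⟨1, by simp, b, hb, by rw [ha1]⟩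
    by_cases hb1 : b = 1
    · exact ⟨1, by simp, a, ha, by rw [hb1, mul_one, one_mul]⟩
    have ha2 := ha.resolve_left ha1
    have hb2 := hb.resolve_left hb1
    have key : ∀ c : Multiplicative ℤ × H, Multiplicative.toAdd c.1 = 1 ∨
        Multiplicative.toAdd c.1 = -1 → c ∈ BB H := fun c hc => Or.inr hc
    rcases ha2 with ha2 | ha2
    · -- a = (1, ..)
      refine ⟨(Multiplicative.ofAdd 1, 1), by simp,
        (Multiplicative.ofAdd (-1), 1) * (a * b), key _ ?_, ?_⟩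
      · show -1 + (Multiplicative.toAdd a.1 + Multiplicative.toAdd b.1) = 1 ∨
          -1 + (Multiplicative.toAdd a.1 + Multiplicative.toAdd b.1) = -1
        omega
      · rw [← mul_assoc, Prod.mk_mul_mk]
        show a * b = (Multiplicative.ofAdd (1 + -1), 1 * 1) * (a * b)
        rw [add_neg_cancel, mul_one]
        show a * b = 1 * (a * b)
        rw [one_mul]
    · refine ⟨(Multiplicative.ofAdd (-1), 1), by simp,
        (Multiplicative.ofAdd 1, 1) * (a * b), key _ ?_, ?_⟩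
      · show 1 + (Multiplicative.toAdd a.1 + Multiplicative.toAdd b.1) = 1 ∨
          1 + (Multiplicative.toAdd a.1 + Multiplicative.toAdd b.1) = -1
        omega
      · rw [← mul_assoc, Prod.mk_mul_mk]
        show a * b = (Multiplicative.ofAdd (-1 + 1), 1 * 1) * (a * b)
        rw [neg_add_cancel, mul_one]
        show a * b = 1 * (a * b)
        rw [one_mul]

/-- The map. -/
noncomputable def ph (N : ℕ) (e : H → ℤ × ℤ) (b : Multiplicative ℤ × H) : Heis :=
  if Multiplicative.toAdd b.1 = 1 then ⟨(e b.2).1 / N, (e b.2).2 / N, 0⟩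
  else if Multiplicative.toAdd b.1 = -1 then (⟨(e b.2⁻¹).1 / N, (e b.2⁻¹).2 / N, 0⟩ : Heis)⁻¹
  else 1

theorem ph_pos (N : ℕ) (e : H → ℤ × ℤ) (h : H) :
    ph N e (Multiplicative.ofAdd 1, h) = ⟨(e h).1 / N, (e h).2 / N, 0⟩ := by
  have h1 : Multiplicative.toAdd ((Multiplicative.ofAdd (1 : ℤ), h) : Multiplicative ℤ × H).1 = 1 :=
    rfl
  rw [ph, if_pos h1]

theorem ph_neg (N : ℕ) (e : H → ℤ × ℤ) (h : H) :
    ph N e (Multiplicative.ofAdd (-1), h) = (⟨(e h⁻¹).1 / N, (e h⁻¹).2 / N, 0⟩ : Heis)⁻¹ := by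
  have h1 : Multiplicative.toAdd ((Multiplicative.ofAdd (-1 : ℤ), h) :
    Multiplicative ℤ × H).1 = -1 := rfl
  rw [ph, if_neg (by rw [h1]; norm_num), if_pos h1]

theorem ph_inv (N : ℕ) (e : H → ℤ × ℤ) {b : Multiplicative ℤ × H} (hb : b ∈ BB H) :
    ph N e b⁻¹ = (ph N e b)⁻¹ := by
  rcases hb with rfl | h | h
  · rw [inv_one, ph, if_neg (by simp), if_neg (by simp), inv_one]
  · have h1 : Multiplicative.toAdd (b⁻¹).1 = -1 := by
      show - Multiplicative.toAdd b.1 = -1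
      rw [h]
    rw [ph, if_neg (by rw [h1]; norm_num), if_pos h1, ph, if_pos h]
    simp
  · have h1 : Multiplicative.toAdd (b⁻¹).1 = 1 := by
      show - Multiplicative.toAdd b.1 = 1
      rw [h]; rfl
    rw [ph, if_pos h1, ph, if_neg (by rw [h]; norm_num), if_pos h, inv_inv]
    rfl

theorem BB_mul {a b : Multiplicative ℤ × H} (ha : a ∈ BB H) (hb : b ∈ BB H) (hab : a * b ∈ BB H) :
    a = 1 ∨ b = 1 ∨ a * b = 1 := by
  by_contra hcon
  push Not at hcon
  have ha2 := ha.resolve_left hcon.1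
  have hb2 := hb.resolve_left hcon.2.1
  have hab2 := hab.resolve_left hcon.2.2
  have h1 : Multiplicative.toAdd (a * b).1 =
    Multiplicative.toAdd a.1 + Multiplicative.toAdd b.1 := rfl
  rw [h1] at hab2
  omega

theorem admissible {N : ℕ} (hN : 1 ≤ N) (e : H ≃ half N) {K : ℝ} (hK : 3 ≤ K) :
    Admissible K N (BB H) (ph N fun h => (e h : ℤ × ℤ)) := by
  have hN' : (0 : ℝ) < N := by exact_mod_cast hN
  have hb : ∀ h : H, |((e h : ℤ × ℤ).1 : ℝ) / N| ≤ 1 ∧ |((e h : ℤ × ℤ).2 : ℝ) / N| ≤ 1 := by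
    intro h
    obtain ⟨h1, h2⟩ := mem_half (e h).2
    rw [abs_div, abs_div, abs_of_pos hN', div_le_one hN', div_le_one hN']
    exact ⟨by exact_mod_cast h1, by exact_mod_cast h2⟩
  have hinv : ∀ b : Multiplicative ℤ × H, b ∈ BB H →
      cocycle (ph N fun h => (e h : ℤ × ℤ)) b b⁻¹ = 1 := by
    intro b hb
    rw [cocycle, ph_inv N _ hb, inv_inv, mul_inv_cancel, mul_inv_cancel, one_mul, ph,
      if_neg (by simp), if_neg (by simp)]
  have hone : ph N (fun h => (e h : ℤ × ℤ)) 1 = 1 := by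
    rw [ph, if_neg (by simp), if_neg (by simp)]
  refine ⟨?_, ?_, ?_, ?_⟩
  · obtain ⟨h1, h2, X, h3, h4⟩ := BB_approx (H := H)
    exact ⟨h1, h2, X, h3.trans hK, h4⟩
  · intro b _
    rw [ph]
    split_ifs with h1 h2
    · obtain ⟨h3, h4⟩ := hb b.2
      refine ⟨⟨_, rfl⟩, ⟨_, rfl⟩, ?_, ?_, ?_⟩
      · exact h3.trans (by norm_num)
      · exact h4.trans (by norm_num)
      · simp
    · obtain ⟨h3, h4⟩ := hb b.2⁻¹
      refine ⟨⟨-(e b.2⁻¹ : ℤ × ℤ).1, ?_⟩, ⟨-(e b.2⁻¹ : ℤ × ℤ).2, ?_⟩, ?_, ?_, ?_⟩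
      · rw [inv_x]; push_cast; ring
      · rw [inv_y]; push_cast; ring
      · rw [inv_x, abs_neg]; exact h3.trans (by norm_num)
      · rw [inv_y, abs_neg]; exact h4.trans (by norm_num)
      · rw [inv_z]
        simp only [neg_zero, zero_add]
        rw [abs_mul]
        have h5 := mul_le_mul h3 h4 (abs_nonneg _) zero_le_one
        linarith
    · refine ⟨⟨0, by simp [one_x]⟩, ⟨0, by simp [one_y]⟩, ?_, ?_, ?_⟩
      · rw [one_x]; norm_num
      · rw [one_y]; norm_num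
      · rw [one_z]; norm_num
  · intro i j hi hj
    rw [abs_div, abs_of_pos hN', div_le_one hN'] at hi hj
    have hi' : |i| ≤ N := by exact_mod_cast hi
    have hj' : |j| ≤ N := by exact_mod_cast hj
    rcases half_cover hi' hj' with h | h | ⟨rfl, rfl⟩
    · refine ⟨(Multiplicative.ofAdd 1, e.symm ⟨_, h⟩), Or.inr (Or.inl rfl), ?_⟩
      rw [ph_pos]
      simp
    · refine ⟨(Multiplicative.ofAdd (-1), (e.symm ⟨_, h⟩)⁻¹), Or.inr (Or.inr rfl), ?_⟩
      rw [ph_neg, inv_x, inv_y, inv_z]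
      simp only [inv_inv, Equiv.apply_symm_apply]
      refine ⟨by push_cast; ring, by push_cast; ring, ?_⟩
      obtain ⟨h3, h4⟩ := hb (e.symm ⟨_, h⟩)
      simp only [Equiv.apply_symm_apply] at h3 h4
      rw [neg_zero, zero_add, abs_mul]
      have h5 := mul_le_mul h3 h4 (abs_nonneg _) zero_le_one
      linarith
    · refine ⟨1, Or.inl rfl, ?_⟩
      rw [hone, one_x, one_y, one_z]
      simp
  · intro a ha b hb hab
    have h1 : cocycle (ph N fun h => (e h : ℤ × ℤ)) a b = 1 := by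
      rcases BB_mul ha hb hab with rfl | rfl | h
      · rw [cocycle, hone, one_mul, inv_one, mul_one, inv_mul_cancel]
      · rw [cocycle, hone, mul_one, inv_one, one_mul, inv_mul_cancel]
      · have h2 : b = a⁻¹ := eq_inv_of_mul_eq_one_right h
        rw [h2]
        exact hinv a ha
    rw [h1, one_x, one_y, one_z, abs_zero]
    exact ⟨rfl, rfl, by positivity⟩

theorem BB_encard {c : ℕ} (e : H ≃ Fin c) : (BB H).encard ≤ ((2 * c + 1 : ℕ) : ℕ∞) := by
  have h1 : BB H ⊆ {1} ∪ (Set.range (fun h : H => (Multiplicative.ofAdd (1 : ℤ), h)) ∪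
      Set.range (fun h : H => (Multiplicative.ofAdd (-1 : ℤ), h))) := by
    rintro ⟨x, h⟩ (hb | hb | hb)
    · exact Or.inl hb
    · refine Or.inr (Or.inl ⟨h, ?_⟩)
      exact Prod.ext (by rw [← hb]; rfl) rfl
    · refine Or.inr (Or.inr ⟨h, ?_⟩)
      exact Prod.ext (by rw [← hb]; rfl) rfl
  have h2 : ∀ f : H → Multiplicative ℤ × H, (Set.range f).encard ≤ (c : ℕ∞) := by
    intro f
    rw [← Set.image_univ]
    refine (Set.encard_image_le _ _).trans ?_
    rw [Set.encard_univ, ENat.card_congr e, ENat.card_eq_coe_fintype_card, Fintype.card_fin]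
  refine (Set.encard_le_encard h1).trans ((Set.encard_union_le _ _).trans ?_)
  have h3 := Set.encard_union_le (Set.range (fun h : H => (Multiplicative.ofAdd (1 : ℤ), h)))
    (Set.range (fun h : H => (Multiplicative.ofAdd (-1 : ℤ), h)))
  have h4 := h3.trans (add_le_add (h2 _) (h2 _))
  rw [Set.encard_singleton]
  calc (1 : ℕ∞) + _ ≤ 1 + ((c : ℕ∞) + c) := add_le_add le_rfl h4
    _ = ((2 * c + 1 : ℕ) : ℕ∞) := by
      push_cast
      rw [two_mul, add_comm]

end example_group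

theorem m_eq {K : ℝ} (hK : 3 ≤ K) {N : ℕ} (hN : 1 ≤ N) : m K N = (((2 * N + 1) ^ 2 : ℕ) : ℕ∞) := by
  apply le_antisymm
  · have hpos : 0 < (half N).card := by
      have h1 := half_card N
      by_contra h0
      have h2 : (half N).card = 0 := by omega
      rw [h2] at h1
      nlinarith
    have : NeZero (half N).card := ⟨hpos.ne'⟩
    let e : Multiplicative (ZMod (half N).card) ≃ Fin (half N).card :=
      Multiplicative.toAdd.trans (ZMod.finEquiv _).symm.toEquiv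
    let e' : Multiplicative (ZMod (half N).card) ≃ half N := e.trans (half N).equivFin.symm
    have h1 := BB_encard e
    rw [half_card] at h1
    refine le_trans (sInf_le ?_) h1
    exact ⟨_, inferInstance, _, _, admissible hN e' hK, rfl⟩
  · apply le_sInf
    rintro n ⟨G, _, B, φ, h, rfl⟩
    exact lower hN h

/-- The exact value of `m_K(N)` for `K ≥ 3`: the trivial lower bound is attained; in particular
`m_K(N) / N ^ 3` tends to `0` and not to infinity. -/
theorem result : (∀ (K : ℝ) (N : ℕ), 3 ≤ K → 1 ≤ N → m K N = (((2 * N + 1) ^ 2 : ℕ) : ℕ∞)) ∧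
    (∀ K : ℝ, 3 ≤ K →
      Tendsto (fun N : ℕ => ((m K N : ℕ∞) : ℝ≥0∞) / (N : ℝ≥0∞) ^ 3) atTop (𝓝 0)) ∧ ¬ Q1 := by
  have h0 : ∀ K : ℝ, 3 ≤ K →
      Tendsto (fun N : ℕ => ((m K N : ℕ∞) : ℝ≥0∞) / (N : ℝ≥0∞) ^ 3) atTop (𝓝 0) := by
    intro K hK
    have h1 : Tendsto (fun N : ℕ => (9 : ℝ≥0∞) / N) atTop (𝓝 0) := by
      have := ENNReal.tendsto_inv_nat_nhds_zero
      have h2 := ENNReal.Tendsto.const_mul (a := 9) this (Or.inr (by norm_num))
      rw [mul_zero] at h2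
      exact h2
    refine tendsto_of_tendsto_of_tendsto_of_le_of_le' tendsto_const_nhds h1
      (Eventually.of_forall fun N => zero_le) ?_
    filter_upwards [eventually_ge_atTop 1] with N hN
    rw [m_eq hK hN]
    have hN0 : (N : ℝ≥0∞) ≠ 0 := by
      rw [Nat.cast_ne_zero]; omega
    have hNt : (N : ℝ≥0∞) ≠ ⊤ := ENNReal.natCast_ne_top N
    rw [ENNReal.div_le_iff (pow_ne_zero _ hN0) (ENNReal.pow_ne_top hNt)]
    have h3 : (9 : ℝ≥0∞) / N * N ^ 3 = 9 * N ^ 2 := by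
      rw [pow_succ' (N : ℝ≥0∞) 2, ← mul_assoc, ENNReal.div_mul_cancel hN0 hNt]
    rw [h3]
    have h4 : (2 * N + 1) ^ 2 ≤ 9 * N ^ 2 := by nlinarith
    calc (((((2 * N + 1) ^ 2 : ℕ) : ℕ∞)) : ℝ≥0∞) = (((2 * N + 1) ^ 2 : ℕ) : ℝ≥0∞) := by simp
      _ ≤ ((9 * N ^ 2 : ℕ) : ℝ≥0∞) := by exact_mod_cast h4
      _ = 9 * N ^ 2 := by push_cast; rfl
  refine ⟨fun K N hK hN => m_eq hK hN, h0, ?_⟩
  intro h
  have h1 := tendsto_nhds_unique (h0 3 le_rfl) (h 3 (by norm_num))
  exact absurd h1 ENNReal.zero_ne_top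

end Pool.Agent.Results.MP_6a66b4_co.SmallAdmissible
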